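import Pool.Agent.Q48.RD.Gen

/-!
# Almost primes `q`, `q ^ 2 - 2`, `p` with `q = ⌊(n - p) / m⌋` for all admissible pairs `(m, n)`, with restricted digits

Let `(m, n)` be an admissible pair: `m ≥ 1`, `n > 2 m + 1`, and `m = 1` and `n` is even, or `m = 3` and `n ≢ 1 (mod 6)`, or `m = 2`, or
`m ≥ 4`. Then there is an `s < m` with the following property.

Let `g ≥ 2` be a base and `K` a large number of digits. For every `i < K` let `A i` be an arbitrary set of digits, such that the number
`|A 0| ⋯ |A (K - 1)|` of the integers `t < g ^ K` whose `i`-th digit belongs to `A i` for all `i < K` is at least `exp (- c K) g ^ K`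
(`Rich`). Let `n ≤ g ^ (E K)` and `N ≥ 2` be arbitrary with `(m + 1) (N + g ^ K + 1) ≤ n`, so that the length `g ^ K` of the interval of
the `q = N + t` may be an arbitrarily small power of `n / m`. For these `q` let `p = n - s - m q`, so that `p < n` and
`q = ⌊(n - p) / m⌋`.

For at least `κ V |A 0| ⋯ |A (K - 1)|` of the `q = N + t` with these `t`, and at least `κ |A 0| ⋯ |A (K - 1)| / K ^ 4`, the numbers `q`,
`q ^ 2 - 2` and `p` have at most `r` prime factors, all larger than `g ^ (K / r)`, unless there is an obvious obstruction (no digit `d` in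
`A 0` such that the three numbers for `q = N + d` are prime to `g`); and for at most `C V |A 0| ⋯ |A (K - 1)|` of them all three are
primes. Here `V` is the product of `1 - ν (l) / l` over the primes `l ≤ g ^ K`, where `ν (l)` is the number of the zeros of
`X (X ^ 2 - 2) (n - s - m X)` modulo `l`, the expected order. The constants do not depend on `m`, `n`, `N` and the sets `A i`.

So the statement Q2 of the problem holds for all admissible pairs with `n` large compared with `m`, if primes are replaced by almost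
primes.
-/

set_option autoImplicit false

namespace Pool.Agent.Results.MP_4011c3_nt.AlmostPrimesForAllPairs

open Filter Finset Polynomial
open Pool.Agent.Q315.RD Pool.Agent.Q48.RD

/-- The admissible pairs of the problem. -/
def AdmissiblePair (m n : ℕ) : Prop :=
  1 ≤ m ∧ 2 * m + 1 < n ∧ ((m = 1 ∧ Even n) ∨ (m = 3 ∧ n % 6 ≠ 1) ∨ m = 2 ∨ 4 ≤ m)

/-- `p < n`, `q = ⌊(n - p) / m⌋` for `p = n - s - m q`, and the numbers `q`, `q ^ 2 - 2`, `p` have the property `Q`. -/
def Triple (m n s : ℕ) (Q : ℕ → Prop) (q : ℕ) : Prop :=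
  ∃ p : ℕ, p + s + m * q = n ∧ p < n ∧ (n - p) / m = q ∧ Q q ∧ Q (q ^ 2 - 2) ∧ Q p

/-- The product of `1 - ν (l) / l` over the primes `l ≤ y`, `ν (l)` the number of the zeros of `X (X ^ 2 - 2) (n - s - m X)` modulo
`l`. -/
noncomputable def V (m n s y : ℕ) : ℝ := rootDensity (fun x : ℕ => (x : ℤ) * ((x : ℤ) ^ 2 - 2) * ((n : ℤ) - s - m * x)) y

/-- The choice of `s`. -/
lemma exists_s {m n : ℕ} (h : AdmissiblePair m n) : ∃ s : ℕ, s < m ∧ (n - s).Coprime m ∧ (Odd m → Even (n - s)) := by
  obtain ⟨hm, hn, h⟩ := h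
  obtain ⟨u, hu⟩ : m ∣ n - n % m := Nat.dvd_sub_mod n
  have hr : n % m < m := Nat.mod_lt _ (by omega)
  have hrn : n % m ≤ n := Nat.mod_le _ _
  -- neighbours of multiples
  have cop1 : ∀ s : ℕ, n - s = m * u + 1 → (n - s).Coprime m := fun s hs => by
    rw [hs, Nat.coprime_mul_left_add_left]
    exact Nat.coprime_one_left m
  have cop2 : ∀ s : ℕ, n - s + 1 = m * u → (n - s).Coprime m := fun s hs => by
    have h1 : (n - s).Coprime (n - s + 1) := by simp
    rw [hs] at h1
    exact Nat.Coprime.coprime_dvd_right (Dvd.intro u rfl) h1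
  have cop3 : ∀ s : ℕ, Odd m → n - s = m * u + 2 → (n - s).Coprime m := fun s hm2 hs => by
    rw [hs, Nat.coprime_mul_left_add_left]
    exact (Nat.coprime_two_left).2 hm2
  have cop4 : ∀ s : ℕ, Odd m → n - s + 2 = m * u → (n - s).Coprime m := fun s hm2 hs => by
    have h1 : (n - s).gcd m ∣ n - s := Nat.gcd_dvd_left _ _
    have h2 : (n - s).gcd m ∣ m := Nat.gcd_dvd_right _ _
    have h3 : (n - s).gcd m ∣ n - s + 2 := by
      rw [hs]
      exact h2.mul_right _
    have h4 : (n - s).gcd m ∣ 2 := (Nat.dvd_add_right h1).1 h3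
    rcases (Nat.dvd_prime Nat.prime_two).1 h4 with h5 | h5
    · exact h5
    · exfalso
      rw [h5] at h2
      exact (Nat.not_even_iff_odd.2 hm2) (even_iff_two_dvd.2 h2)
  rcases Nat.even_or_odd m with he | ho
  · -- `m` is even
    have hno : ∀ s : ℕ, Odd m → Even (n - s) := fun s h1 => absurd he (Nat.not_even_iff_odd.2 h1)
    have hm2 : 2 ≤ m := by
      obtain ⟨w, hw⟩ := he
      omega
    rcases Nat.eq_zero_or_pos (n % m) with h0 | h0
    · exact ⟨1, by omega, cop2 1 (by omega), hno 1⟩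
    · exact ⟨n % m - 1, by omega, cop1 _ (by omega), hno _⟩
  · obtain ⟨w, hw⟩ := ho
    rcases h with ⟨h1, h2⟩ | ⟨h1, h2⟩ | h1 | h1
    · subst h1
      exact ⟨0, by omega, Nat.coprime_one_right _, fun _ => h2⟩
    · subst h1
      have h3 : ∀ s : ℕ, (n - s) % 3 ≠ 0 → (n - s).Coprime 3 := fun s hs => by
        rw [Nat.coprime_comm, Nat.Prime.coprime_iff_not_dvd Nat.prime_three]
        omega
      have h4 : n % 6 < 6 := Nat.mod_lt _ (by norm_num)
      have h5 : n % 6 = 0 ∨ n % 6 = 2 ∨ n % 6 = 3 ∨ n % 6 = 4 ∨ n % 6 = 5 := by omega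
      rcases h5 with h5 | h5 | h5 | h5 | h5
      · exact ⟨2, by omega, h3 2 (by omega), fun _ => by rw [Nat.even_iff]; omega⟩
      · exact ⟨0, by omega, h3 0 (by omega), fun _ => by rw [Nat.even_iff]; omega⟩
      · exact ⟨1, by omega, h3 1 (by omega), fun _ => by rw [Nat.even_iff]; omega⟩
      · exact ⟨0, by omega, h3 0 (by omega), fun _ => by rw [Nat.even_iff]; omega⟩
      · exact ⟨1, by omega, h3 1 (by omega), fun _ => by rw [Nat.even_iff]; omega⟩
    · omega
    · have hm5 : 5 ≤ m := by omega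
      have hodd : Odd m := ⟨w, hw⟩
      rcases Nat.even_or_odd (m * u) with h2 | h2
      · rcases Nat.lt_or_ge (n % m) 2 with h3 | h3
        · refine ⟨n % m + 2, by omega, cop4 _ hodd (by omega), fun _ => ?_⟩
          have e : n - (n % m + 2) = m * u - 2 := by omega
          rw [e]
          exact h2.tsub even_two
        · refine ⟨n % m - 2, by omega, cop3 _ hodd (by omega), fun _ => ?_⟩
          have e : n - (n % m - 2) = m * u + 2 := by omega
          rw [e]
          exact h2.add even_two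
      · rcases Nat.eq_zero_or_pos (n % m) with h3 | h3
        · refine ⟨1, by omega, cop2 _ (by omega), fun _ => ?_⟩
          obtain ⟨z, hz⟩ := h2
          rw [Nat.even_iff]
          omega
        · refine ⟨n % m - 1, by omega, cop1 _ (by omega), fun _ => ?_⟩
          obtain ⟨z, hz⟩ := h2
          rw [Nat.even_iff]
          omega

/-- the three polynomials -/
noncomputable def pol (m n s : ℕ) : Fin 3 → ℤ[X] := ![X, X ^ 2 - C 2, C ((n : ℤ) - s) - C (m : ℤ) * X]

lemma natDegree_C_mul_X_le' (a : ℤ) : (C a * X).natDegree ≤ 1 := by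
  simpa using natDegree_C_mul_X_pow_le a 1

lemma pol_eval (m n s : ℕ) (x : ℤ) : ∀ j, (pol m n s j).eval x = (![x, x ^ 2 - 2, (n : ℤ) - s - m * x] : Fin 3 → ℤ) j := by
  intro j
  fin_cases j <;> simp [pol]

/-- There is no local obstruction. -/
lemma adm {m n s : ℕ} (hsn : s ≤ n) (hco : (n - s).Coprime m) (hpar : Odd m → Even (n - s)) (p : ℕ) (hp : p.Prime) :
    ∃ t : ℤ, ∀ j, ¬ (p : ℤ) ∣ (pol m n s j).eval t := by
  have hpz := Nat.prime_iff_prime_int.1 hp
  have hns : ((n - s : ℕ) : ℤ) = (n : ℤ) - s := Nat.cast_sub hsn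
  suffices h : ∃ t : ℤ, ¬ (p : ℤ) ∣ t ∧ ¬ (p : ℤ) ∣ t ^ 2 - 2 ∧ ¬ (p : ℤ) ∣ (n : ℤ) - s - m * t by
    obtain ⟨t, h1, h2, h3⟩ := h
    refine ⟨t, fun j => ?_⟩
    rw [pol_eval]
    fin_cases j
    · exact h1
    · exact h2
    · exact h3
  rcases Nat.lt_or_ge p 5 with h5 | h5
  · have h2 := hp.two_le
    have h3 : p = 2 ∨ p = 3 := by
      by_contra hcon
      have : p = 4 := by omega
      subst this
      revert hp
      norm_num
    rcases h3 with rfl | rfl
    · refine ⟨1, by norm_num, by norm_num, ?_⟩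
      rw [← hns]
      rcases Nat.even_or_odd m with he | ho
      · obtain ⟨w, hw⟩ := he
        have h4 : Odd (n - s) := by
          rw [← Nat.coprime_two_right]
          exact Nat.Coprime.coprime_dvd_right ⟨w, by omega⟩ hco
        obtain ⟨z, hz⟩ := h4
        push_cast
        omega
      · obtain ⟨z, hz⟩ := hpar ho
        obtain ⟨w, hw⟩ := ho
        push_cast
        omega
    · rw [← hns]
      by_cases hm3 : 3 ∣ m
      · refine ⟨1, by norm_num, by norm_num, ?_⟩
        intro h4
        have h6 : ((3 : ℕ) : ℤ) ∣ (m : ℤ) * 1 := (Int.natCast_dvd_natCast.2 hm3).mul_right _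
        have h7 : ((3 : ℕ) : ℤ) ∣ ((n - s : ℕ) : ℤ) := (dvd_sub_left h6).1 h4
        have h8 := Nat.dvd_gcd (Int.natCast_dvd_natCast.1 h7) hm3
        rw [hco] at h8
        omega
      · by_cases h4 : ((3 : ℕ) : ℤ) ∣ ((n - s : ℕ) : ℤ) - m * 1
        · refine ⟨2, by norm_num, by norm_num, fun h6 => hm3 ?_⟩
          push_cast at h4 h6 ⊢
          omega
        · exact ⟨1, by norm_num, by norm_num, h4⟩
  · by_cases hpm : p ∣ m
    · obtain ⟨t, ht⟩ := Pool.Agent.Y816.PD.adm_deg hp (X * (X ^ 2 - C 2))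
        (by
          have e : (X * (X ^ 2 - C 2) : ℤ[X]).leadingCoeff = 1 := by
            apply Monic.mul monic_X
            exact monic_X_pow_sub_C 2 (by norm_num)
          rw [e]
          intro h1
          exact hpz.not_isUnit (isUnit_of_dvd_one h1))
        (by
          refine lt_of_le_of_lt natDegree_mul_le ?_
          rw [natDegree_X, natDegree_X_pow_sub_C]
          omega)
      have ht' : ¬ (p : ℤ) ∣ (t : ℤ) * ((t : ℤ) ^ 2 - 2) := by simpa using ht
      refine ⟨t, fun h1 => ht' (h1.mul_right _), fun h1 => ht' (h1.mul_left _), fun h1 => ?_⟩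
      rw [← hns] at h1
      have h6 : (p : ℤ) ∣ (m : ℤ) * t := (Int.natCast_dvd_natCast.2 hpm).mul_right _
      have h7 : (p : ℤ) ∣ ((n - s : ℕ) : ℤ) := (dvd_sub_left h6).1 h1
      have h8 := Nat.dvd_gcd (Int.natCast_dvd_natCast.1 h7) hpm
      rw [hco] at h8
      exact hp.one_lt.ne' (Nat.dvd_one.1 h8)
    · have hm0 : (m : ℤ) ≠ 0 := fun h0 => hpm (by
        have : m = 0 := by exact_mod_cast h0
        rw [this]
        exact dvd_zero p)
      have hlin : (C (m : ℤ) * X + C (-((n : ℤ) - s))).natDegree = 1 := natDegree_linear hm0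
      obtain ⟨t, ht⟩ := Pool.Agent.Y816.PD.adm_deg hp (X * (X ^ 2 - C 2) * (C (m : ℤ) * X + C (-((n : ℤ) - s))))
        (by
          have e : (X * (X ^ 2 - C 2) : ℤ[X]).leadingCoeff = 1 := by
            apply Monic.mul monic_X
            exact monic_X_pow_sub_C 2 (by norm_num)
          rw [leadingCoeff_mul, e, one_mul, leadingCoeff_linear hm0]
          intro h1
          exact hpm (Int.natCast_dvd_natCast.1 h1))
        (by
          refine lt_of_le_of_lt natDegree_mul_le ?_
          refine lt_of_le_of_lt (Nat.add_le_add_right natDegree_mul_le _) ?_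
          rw [natDegree_X, natDegree_X_pow_sub_C, hlin]
          omega)
      have ht' : ¬ (p : ℤ) ∣ (t : ℤ) * ((t : ℤ) ^ 2 - 2) * (m * t - (n - s)) := by
        simpa [sub_eq_add_neg] using ht
      refine ⟨t, fun h1 => ht' ((h1.mul_right _).mul_right _), fun h1 => ht' ((h1.mul_left _).mul_right _), fun h1 => ?_⟩
      apply ht'
      refine Dvd.dvd.mul_left ?_ _
      have e : (m : ℤ) * t - (n - s) = -((n : ℤ) - s - m * t) := by ring
      rw [e, dvd_neg]
      exact h1

/-- **Almost primes `q`, `q ^ 2 - 2`, `p` with `q = ⌊(n - p) / m⌋` for all admissible pairs `(m, n)`, with restricted digits.** -/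
theorem result (E : ℕ) :
    ∃ c : ℝ, 0 < c ∧ ∃ r₀ : ℕ, 2 ≤ r₀ ∧ ∀ r : ℕ, r₀ ≤ r → ∀ g : ℕ, 2 ≤ g → ∃ κ C : ℝ, 0 < κ ∧ 0 < C ∧
      ∀ᶠ K : ℕ in atTop, ∀ m n : ℕ, AdmissiblePair m n → n ≤ g ^ (E * K) → ∃ s : ℕ, s < m ∧
        ∀ N : ℕ, 2 ≤ N → (m + 1) * (N + g ^ K + 1) ≤ n → ∀ A : ℕ → Finset ℕ, Rich c g K A →
          ((∃ d ∈ A 0, Triple m n s (fun l => l.Coprime g) (N + d)) →
            κ * V m n s (g ^ K) * choices K A ≤ count g K A (fun t => Triple m n s (AlmostPrime (g ^ K) r) (N + t)) ∧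
            κ * choices K A / (K : ℝ) ^ 4 ≤ count g K A (fun t => Triple m n s (AlmostPrime (g ^ K) r) (N + t))) ∧
          (count g K A (fun t => Triple m n s Nat.Prime (N + t)) : ℝ) ≤ C * V m n s (g ^ K) * choices K A := by
  obtain ⟨c, hc, r₀, hr₀, h1⟩ := famP 3 2 4 (2 * E)
  refine ⟨c, hc, r₀, hr₀, fun r hr g hg => ?_⟩
  obtain ⟨κ, C', hκ, hC, h2⟩ := h1 r hr g hg
  refine ⟨κ, C', hκ, hC, ?_⟩
  filter_upwards [h2, eventually_ge_atTop 1] with K hK hK1
  intro m n hmn hn
  obtain ⟨s, hs, hco, hpar⟩ := exists_s hmn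
  have hm1 := hmn.1
  have hn1 := hmn.2.1
  refine ⟨s, hs, fun N hN hNn A hA => ?_⟩
  have hgK : 1 ≤ g ^ K := Nat.one_le_pow _ _ (by omega)
  have hbound : ∀ t < g ^ K, m * (N + t) + t + s + N ≤ n := by
    intro t ht
    have e : (m + 1) * (N + g ^ K + 1) = m * (N + g ^ K) + m + N + g ^ K + 1 := by ring
    have h3 : m * (N + t) ≤ m * (N + g ^ K) := Nat.mul_le_mul_left _ (by omega)
    omega
  have hNt : ∀ t < g ^ K, N + t ≤ n := fun t ht => by
    have h3 := hbound t ht
    have h4 : N + t ≤ m * (N + t) := Nat.le_mul_of_pos_left _ (by omega)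
    omega
  have hpow : n ≤ g ^ (2 * E * K) := by
    refine hn.trans (Nat.pow_le_pow_right (by omega) ?_)
    have e : 2 * E * K = E * K + E * K := by ring
    omega
  obtain ⟨h3, h4⟩ := hK (pol m n s)
    (fun j => by
      fin_cases j
      · change (X : ℤ[X]).natDegree ≤ 2
        rw [natDegree_X]; norm_num
      · change (X ^ 2 - C 2 : ℤ[X]).natDegree ≤ 2
        rw [natDegree_X_pow_sub_C]
      · change (C ((n : ℤ) - s) - C (m : ℤ) * X).natDegree ≤ 2
        refine (natDegree_sub_le _ _).trans ?_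
        rw [natDegree_C]
        exact max_le (by norm_num) ((natDegree_C_mul_X_le' _).trans (by norm_num)))
    (by
      rw [Fin.sum_univ_three]
      have e1 : (pol m n s 0).natDegree = 1 := natDegree_X
      have e2 : (pol m n s 1).natDegree = 2 := natDegree_X_pow_sub_C
      have e3 : (pol m n s 2).natDegree ≤ 1 := by
        change (C ((n : ℤ) - s) - C (m : ℤ) * X).natDegree ≤ 1
        refine (natDegree_sub_le _ _).trans ?_
        rw [natDegree_C]
        exact max_le (by norm_num) (natDegree_C_mul_X_le' _)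
      omega)
    (adm (by omega) hco hpar) N (fun j t => (![N + t, (N + t) ^ 2 - 2, n - s - m * (N + t)] : Fin 3 → ℕ) j)
    (fun t ht j => by
      rw [pol_eval]
      have h5 := hbound t ht
      fin_cases j
      · change (N : ℤ) + t = ((N + t : ℕ) : ℤ)
        push_cast; ring
      · change ((N : ℤ) + t) ^ 2 - 2 = (((N + t) ^ 2 - 2 : ℕ) : ℤ)
        have h6 : 2 ≤ (N + t) ^ 2 := le_trans (by omega : 2 ≤ N + t) (Nat.le_self_pow (by norm_num) _)
        rw [Nat.cast_sub h6]
        push_cast; ring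
      · change (n : ℤ) - s - m * ((N : ℤ) + t) = ((n - s - m * (N + t) : ℕ) : ℤ)
        rw [Nat.cast_sub (by omega), Nat.cast_sub (by omega)]
        push_cast; ring)
    (fun t ht j => by
      have h5 := hbound t ht
      fin_cases j
      · change t ≤ N + t
        omega
      · change t ≤ (N + t) ^ 2 - 2
        have h6 : 2 * (N + t) ≤ (N + t) ^ 2 := by nlinarith
        omega
      · change t ≤ n - s - m * (N + t)
        omega)
    (fun t ht j => by
      have h5 := hNt t ht
      fin_cases j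
      · change N + t ≤ _
        omega
      · change (N + t) ^ 2 - 2 ≤ _
        refine (Nat.sub_le _ _).trans ?_
        calc (N + t) ^ 2 ≤ n ^ 2 := Nat.pow_le_pow_left h5 2
          _ ≤ (g ^ (E * K)) ^ 2 := Nat.pow_le_pow_left hn 2
          _ = g ^ (2 * E * K) := by rw [← pow_mul]; congr 1; ring
      · change n - s - m * (N + t) ≤ _
        omega) A hA
  have hconv : ∀ (Q : ℕ → Prop) (t : ℕ), t < g ^ K → ((∀ j, Q ((![N + t, (N + t) ^ 2 - 2, n - s - m * (N + t)] : Fin 3 → ℕ) j)) ↔
      Triple m n s Q (N + t)) := by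
    intro Q t ht
    have h5 := hbound t ht
    have h9 : N + t ≤ m * (N + t) := Nat.le_mul_of_pos_left _ (by omega)
    constructor
    · intro h6
      refine ⟨n - s - m * (N + t), by omega, by omega, ?_, h6 0, h6 1, h6 2⟩
      have e : n - (n - s - m * (N + t)) = s + m * (N + t) := by omega
      rw [e, Nat.add_mul_div_left _ _ (by omega), Nat.div_eq_of_lt hs, zero_add]
    · rintro ⟨p, hp, -, -, h6, h7, h8⟩ j
      have e : n - s - m * (N + t) = p := by omega
      fin_cases j
      · exact h6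
      · exact h7
      · change Q (n - s - m * (N + t))
        rw [e]
        exact h8
  have hV : rootDensity (fun x : ℕ => ∏ j, (pol m n s j).eval (x : ℤ)) (g ^ K) = V m n s (g ^ K) := by
    unfold V
    congr 1
    funext x
    rw [Fin.prod_univ_three, pol_eval, pol_eval, pol_eval]
    rfl
  rw [hV] at h3 h4
  have hle : (count g K A (fun t => ∀ j, AlmostPrime (g ^ K) r ((![N + t, (N + t) ^ 2 - 2, n - s - m * (N + t)] : Fin 3 → ℕ) j)) : ℝ) ≤
      count g K A (fun t => Triple m n s (AlmostPrime (g ^ K) r) (N + t)) :=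
    Nat.cast_le.2 (count_mono fun t ht hQ => (hconv _ t ht).1 hQ)
  refine ⟨fun ⟨d, hd, h6⟩ => ?_, (Nat.cast_le.2 (count_mono fun t ht hQ => (hconv _ t ht).2 hQ)).trans h4⟩
  have hd' : d < g ^ K := (mem_range.1 (hA.1 0 (by omega) hd)).trans_le (Nat.le_self_pow (by omega) g)
  have h7 := h3 ⟨d, hd, (hconv _ d hd').2 h6⟩
  exact ⟨h7.1.trans hle, h7.2.trans hle⟩

end Pool.Agent.Results.MP_4011c3_nt.AlmostPrimesForAllPairs
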