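import Pool.Agent.Q26.PW.PW4
import Pool.Agent.Q26.PD.AU
import Pool.Agent.Q26.PD.LG
import Pool.Agent.Results.MP_4011c3_nt.AlmostAllAlmostPrime

/-!
# Primes `p < n` with `q = ⌊(n - p) / m⌋` prime and `q ^ 2 - 2` almost prime, for all `n` in short intervals around
the elements of sparse sets, and all bounded `m`

The starting file `Pool.Agent.Results.MP_4011c3_nt.AlmostAllAlmostPrime` has, for each fixed `m`, the result for almost all
integers `n`; its definitions are used here: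
* `Admissible m n`: the pair `(m, n)` is admissible (as in the problem, with `2 m + 1 < n`);
* `Rep K m n`: there is a prime `p < n` such that `q = ⌊(n - p) / m⌋` is prime, `q ^ 2 - 2` has no prime factor `ℓ` with
  `ℓ ^ K ≤ n`, and `q ^ 2 - 2` has fewer than `2 K` prime factors, counted with multiplicity.
-/

set_option autoImplicit false

namespace Pool.Agent.Results.MP_4011c3_nt.ShortIntervalsSparseSets

open Finset Polynomial
open Pool.Agent.H373R2.T7
open Pool.Agent.H373R2.T7.TB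
open Pool.Agent.H373R2.T7.PB
open Pool.Agent.Q26.PW
open Pool.Agent.Results.MP_4011c3_nt.AlmostAllAlmostPrime

open Classical in
/-- The elements `v < X` of the automatic set given by the base `b` and the automaton `A`: the integers whose base
`b` digits are accepted by `A`. -/
noncomputable def aut {σ : Type} (b : ℕ) (A : DFA ℕ σ) (X : ℕ) : Finset ℕ :=
  (range X).filter fun v => Nat.digits b v ∈ A.accepts

/-- ALL the integers `n ≥ δ X` at distance at most `log ^ R X` from `c` have, for ALL `m ≤ M` for which the pair `(m, n)` is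
admissible, a prime `p < n` as in the second question, with `q ^ 2 - 2` almost prime. -/
def AllGood (K M R X : ℕ) (δ : ℝ) (c : ℤ) : Prop :=
  ∀ n : ℕ, |(n : ℝ) - c| ≤ Real.log X ^ R → δ * X ≤ n → ∀ m : ℕ, 1 ≤ m → m ≤ M → Admissible m n → Rep K m n

lemma XCount_low' (m N X M0 : ℕ) (δ : ℝ) (hm : 1 ≤ m) (hmM : m ≤ M0) (hN : 1 ≤ N) (h : δ / 2 * X ≤ N) (hX : 4 * M0 ≤ δ * X) :
    min 1 (δ / (4 * M0)) * X ≤ SHN.XCount (LinG m) N X := by
  have h1 : min X ((N - 1) / m) ≤ SHN.XCount (LinG m) N X := by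
    unfold SHN.XCount
    calc min X ((N - 1) / m) = (Icc 1 (min X ((N - 1) / m))).card := by rw [Nat.card_Icc, Nat.add_sub_cancel]
      _ ≤ _ := by
        apply card_le_card
        intro k hk
        rw [mem_Icc] at hk
        have hk1 : k ≤ X := hk.2.trans (min_le_left _ _)
        have h2 : k * m ≤ N - 1 := (Nat.le_div_iff_mul_le (by omega)).1 (hk.2.trans (min_le_right _ _))
        rw [mem_filter, mem_Icc, LinG_eval]
        refine ⟨⟨hk.1, hk1⟩, ?_⟩
        have h4 : ((k * m : ℕ) : ℤ) ≤ ((N - 1 : ℕ) : ℤ) := by exact_mod_cast h2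
        push_cast [Nat.cast_sub hN] at h4
        linarith
  have h1' : ((min X ((N - 1) / m) : ℕ) : ℝ) ≤ SHN.XCount (LinG m) N X := by exact_mod_cast h1
  refine le_trans ?_ h1'
  have hM0 : (1 : ℝ) ≤ M0 := by exact_mod_cast hm.trans hmM
  have hX0 : (0 : ℝ) ≤ X := Nat.cast_nonneg _
  rw [Nat.cast_min, min_mul_of_nonneg _ _ hX0, one_mul]
  apply min_le_min le_rfl
  have h2 : N ≤ m * ((N - 1) / m) + m := by
    have h3 := Nat.div_add_mod (N - 1) m
    have h4 := Nat.mod_lt (N - 1) (show 0 < m by omega)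
    omega
  have h3 : (N : ℝ) ≤ m * ((N - 1) / m : ℕ) + m := by exact_mod_cast h2
  have hmr : (1 : ℝ) ≤ m := by exact_mod_cast hm
  have hmMr : (m : ℝ) ≤ M0 := by exact_mod_cast hmM
  have h4 : (0 : ℝ) ≤ ((N - 1) / m : ℕ) := Nat.cast_nonneg _
  rw [div_mul_eq_mul_div, div_le_iff₀ (by positivity)]
  have h5 : (m : ℝ) * ((N - 1) / m : ℕ) ≤ M0 * ((N - 1) / m : ℕ) := mul_le_mul_of_nonneg_right hmMr h4
  nlinarith

/-- from the engine -/
lemma allGood_of (K M R : ℕ) (hK : 1 ≤ K) (hM : 1 ≤ M) (δ : ℝ) (hδ : 0 < δ) (B : ℕ) : ∃ X₀ : ℕ, ∀ X : ℕ, X₀ ≤ X → ∀ c : ℤ,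
    |c| ≤ (B : ℤ) * X → GoodN (1 / 2) K M (R + 1) X FF (min 1 (δ / (4 * M))) c → AllGood (K + 1) M R X δ c := by
  obtain ⟨n1, h1⟩ := ev_L' (M + 2)
  obtain ⟨n2, h2⟩ := ev_log' R 1
  obtain ⟨n3, hn3⟩ := exists_nat_ge (4 * M / δ)
  refine ⟨n1 + n2 + n3 + (B + 2) ^ K + 2, fun X hX c hc hgood n hn hnδ m hm hmM hadm => ?_⟩
  have hL := h1 X (by omega)
  have hL2 := h2 X (by omega)
  rw [one_mul] at hL2
  have hX0 : (0 : ℝ) < X := by exact_mod_cast (by omega : 0 < X)
  have hX1 : (1 : ℝ) ≤ X := by exact_mod_cast (by omega : 1 ≤ X)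
  have hM0 : (0 : ℝ) ≤ M := Nat.cast_nonneg _
  have hL1 : 1 ≤ Real.log X := by linarith
  have hXδ : 4 * (M : ℝ) ≤ δ * X := by
    have h3 : (n3 : ℝ) ≤ X := by exact_mod_cast (by omega : n3 ≤ X)
    have h4 : 4 * M / δ ≤ X := hn3.trans h3
    rw [div_le_iff₀ hδ] at h4
    linarith
  have hlR : Real.log X ^ R ≤ X := by
    refine hL2.trans ?_
    rw [Real.sqrt_le_left hX0.le]
    nlinarith
  obtain ⟨r, hr, hcop, hodd⟩ := loc m n hm hadm
  have hMr : (m : ℝ) ≤ M := by exact_mod_cast hmM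
  have hrm : (r : ℝ) + 1 ≤ m := by exact_mod_cast hr
  have hrn : r < n := by
    have h3 : (r : ℝ) < n := by linarith
    exact_mod_cast h3
  have hcast : ((n - r : ℕ) : ℝ) = n - r := by rw [Nat.cast_sub hrn.le]
  have hr0 : (0 : ℝ) ≤ r := Nat.cast_nonneg _
  obtain ⟨z, hz1, hz2⟩ := hgood (n - r) (by
    apply Pool.Agent.Q26.PD.LG.floor_of
    push_cast [Nat.cast_sub hrn.le]
    rw [abs_le] at hn ⊢
    have h4 : Real.log X ^ R + (M : ℝ) ≤ Real.log X ^ (R + 1) := by
      rw [pow_succ]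
      have : 1 ≤ Real.log X ^ R := one_le_pow₀ hL1
      nlinarith
    constructor <;> linarith [hn.1, hn.2]) (by omega) m hm hmM (noFixed m (n - r) hcop hodd)
    (XCount_low' m (n - r) X M δ hm hmM (by omega) (by rw [hcast]; linarith) hXδ)
  have hXpos : 0 < SHN.XCount (LinG m) (n - r) X := by
    have h5 := XCount_low' m (n - r) X M δ hm hmM (by omega) (by rw [hcast]; linarith) hXδ
    have h6 : 0 < min 1 (δ / (4 * (M : ℝ))) * X := by
      apply mul_pos _ hX0
      apply lt_min one_pos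
      have : (1 : ℝ) ≤ M := by exact_mod_cast hM
      positivity
    exact_mod_cast h6.trans_le h5
  have h6 := TP_pos FF (LinG m) (n - r) z (root K X) X hz1 (noFixed m (n - r) hcop hodd) hXpos
  have h7 := (abs_le.1 hz2).1
  refine rep_of_pos (K + 1) m n r (root K X) X (by omega) hm hr hrn ?_ (by
    show 0 < WP FF (LinG m) (n - r) (root K X) X
    linarith)
  -- the size of the sieve
  intro ℓ hℓ
  apply le_root K X ℓ hK
  rcases Nat.lt_or_ge ℓ (B + 2) with h8 | h8
  · exact (Nat.pow_le_pow_left h8.le K).trans (by omega)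
  · have h9 : (n : ℝ) ≤ (B + 2) * X := by
      have b1 := (abs_le.1 hn).2
      have b2 : (c : ℝ) ≤ B * X := by exact_mod_cast (le_abs_self c).trans hc
      nlinarith
    have h10 : n ≤ (B + 2) * X := by exact_mod_cast h9
    have h11 : ℓ ^ K * (B + 2) ≤ X * (B + 2) := by
      calc ℓ ^ K * (B + 2) ≤ ℓ ^ K * ℓ := Nat.mul_le_mul_left _ h8
        _ = ℓ ^ (K + 1) := (pow_succ _ _).symm
        _ ≤ n := hℓ
        _ ≤ (B + 2) * X := h10
        _ = X * (B + 2) := mul_comm _ _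
    exact Nat.le_of_mul_le_mul_right h11 (by omega)

open Classical in
/-- There is an absolute constant `K` such that the following holds for the second question, with `q ^ 2 - 2` almost prime
(`Rep K m n`), for all `M`, `R`, `B` and `δ > 0`.

(A) Few elements of arbitrary sets: for every `l ≥ 2` there is a `C` such that for all `H` and large `X`, for all sets `T` of
integers which contain an element of every interval `[x, l x]`, `x ≥ 1` (the constants do not depend on `T`) and all `a`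
with `|a| ≤ B X`, one can add to `a` a sum of at most `C (log log X) ^ 2` distinct elements of `T` between `log ^ H X` and
`X / log ^ H X` in such a way that ALL the integers `n ≥ δ X` at distance at most `log ^ R X` from the new number have
the property `Rep K m n` for ALL `m ≤ M` for which `(m, n)` is admissible.

(B) Automatic sets: the same is true around the numbers `c + k v` for all the elements `v < X` of an automatic set which is
not sparse (its number of elements up to `X` is not bounded by a power of `log X`), with the exception of a proportion of at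
most `1 / log ^ U X` of them, for all `|c| ≤ B X`. -/
theorem result : ∃ K : ℕ, 1 ≤ K ∧ ∀ (M R B : ℕ) (δ : ℝ), 1 ≤ M → 0 < δ →
    (∀ l : ℕ, 2 ≤ l → ∃ C : ℝ, ∀ H : ℕ, ∃ X₀ : ℕ, ∀ T : Set ℕ,
      (∀ x : ℕ, 1 ≤ x → ∃ t ∈ T, x ≤ t ∧ t ≤ l * x) → ∀ X : ℕ, X₀ ≤ X → ∀ a : ℤ, |a| ≤ (B : ℤ) * X →
      ∃ S : Finset ℕ, (∀ t ∈ S, t ∈ T ∧ Real.log X ^ H ≤ t ∧ (t : ℝ) ≤ X / Real.log X ^ H) ∧
        ((S.card : ℝ) ≤ C * Real.log (Real.log X) ^ 2) ∧ AllGood K M R X δ (a + ((∑ t ∈ S, t : ℕ) : ℤ))) ∧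
    (∀ b : ℕ, 2 ≤ b → ∀ (σ : Type) (_ : Finite σ) (A : DFA ℕ σ),
      (∀ j : ℕ, ∃ᶠ X : ℕ in Filter.atTop, Real.log X ^ j < ((aut b A X).card : ℝ)) → ∀ (k : ℤ) (U : ℕ), k ≠ 0 →
      ∃ X₀ : ℕ, ∀ X : ℕ, X₀ ≤ X → ∀ c : ℤ, |c| ≤ (B : ℤ) * X →
        (((aut b A X).filter fun v : ℕ => ¬ AllGood K M R X δ (c + k * (v : ℤ))).card : ℝ) ≤ (aut b A X).card / Real.log X ^ U) := by
  obtain ⟨K, hK, h⟩ := pw_both 3 (1 / 2) (by norm_num)
  have hF := h 1 FF (fun i => by rw [FF_deg]; norm_num) FF_lc (by rw [Fin.sum_univ_one, FF_deg])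
  obtain ⟨hA, hB⟩ := hF
  refine ⟨K + 1, by omega, fun M R B δ hM hδ => ⟨?_, ?_⟩⟩
  · intro l hl
    have hκ : 0 < min 1 (δ / (4 * (M : ℝ))) := by
      apply lt_min one_pos
      have : (1 : ℝ) ≤ M := by exact_mod_cast hM
      positivity
    obtain ⟨C, hC⟩ := hA l 1 M (R + 1) (min 1 (δ / (4 * M))) hl le_rfl hM hκ
    refine ⟨C, fun H => ?_⟩
    obtain ⟨X₀, h0⟩ := hC (H + 4) B
    obtain ⟨X₁, h1⟩ := allGood_of K M R hK hM δ hδ (B + 1)
    obtain ⟨n2, h2⟩ := ev_L' (|C| + 2)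
    refine ⟨X₀ + X₁ + n2 + 2, fun T hT X hX a ha => ?_⟩
    obtain ⟨S, g1, g2, _, g3⟩ := h0 T hT X (by omega) a ha
    have hL := h2 X (by omega)
    obtain ⟨L, hLd⟩ : ∃ L, L = Real.log (X : ℝ) := ⟨_, rfl⟩
    have hx0 : (0 : ℝ) < X := by exact_mod_cast (by omega : 0 < X)
    rw [← hLd] at hL g1 g2
    have hC0 := abs_nonneg C
    have hL1 : 1 ≤ L := by linarith
    have hL0 : 0 < L := by linarith
    have b1 : ((∑ t ∈ S, t : ℕ) : ℝ) ≤ X := by
      have c1 : ((∑ t ∈ S, t : ℕ) : ℝ) ≤ S.card * (X / L ^ (H + 4)) := by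
        push_cast
        calc ∑ t ∈ S, (t : ℝ) ≤ ∑ _t ∈ S, X / L ^ (H + 4) := sum_le_sum fun t ht => (g1 t ht).2.2
          _ = _ := by rw [sum_const, nsmul_eq_mul]
      have c2 : Real.log L ≤ L := (Real.log_le_sub_one_of_pos hL0).trans (by linarith)
      have c3 : 0 ≤ Real.log L := Real.log_nonneg hL1
      have c4 : Real.log L ^ 2 ≤ L ^ 2 := pow_le_pow_left₀ c3 c2 2
      have c5 : (S.card : ℝ) ≤ |C| * L ^ 2 :=
        (g2.trans (mul_le_mul_of_nonneg_right (le_abs_self C) (by positivity))).trans (mul_le_mul_of_nonneg_left c4 hC0)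
      have c6 : (X : ℝ) / L ^ (H + 4) ≤ X / L ^ 4 :=
        div_le_div_of_nonneg_left hx0.le (by positivity) (pow_le_pow_right₀ hL1 (by omega))
      have c7 : (S.card : ℝ) * (X / L ^ (H + 4)) ≤ (|C| * L ^ 2) * (X / L ^ 4) :=
        mul_le_mul c5 c6 (by positivity) (by positivity)
      have c8 : (|C| * L ^ 2) * (X / L ^ 4) = (|C| / L) * (X / L) := by field_simp
      have c9 : |C| / L ≤ 1 := by rw [div_le_one hL0]; linarith
      calc ((∑ t ∈ S, t : ℕ) : ℝ) ≤ (|C| / L) * (X / L) := c1.trans (c7.trans (le_of_eq c8))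
        _ ≤ 1 * (X / L) := mul_le_mul_of_nonneg_right c9 (by positivity)
        _ ≤ X := by rw [one_mul]; exact div_le_self hx0.le hL1
    refine ⟨S, fun t ht => ?_, by rw [← hLd]; exact g2, ?_⟩
    · obtain ⟨b1, b2, b3⟩ := g1 t ht
      rw [← hLd]
      refine ⟨b1, le_trans (pow_le_pow_right₀ hL1 (by omega)) b2, b3.trans ?_⟩
      exact div_le_div_of_nonneg_left hx0.le (by positivity) (pow_le_pow_right₀ hL1 (by omega))
    · refine h1 X (by omega) _ ?_ g3
      have b2 : ((∑ t ∈ S, t : ℕ) : ℤ) ≤ X := by exact_mod_cast b1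
      have b3 := abs_add_le a ((∑ t ∈ S, t : ℕ) : ℤ)
      rw [abs_of_nonneg (Int.natCast_nonneg (∑ t ∈ S, t))] at b3
      have b4 : ((B + 1 : ℕ) : ℤ) * X = B * X + X := by push_cast; ring
      rw [b4]
      linarith
  · intro b hb σ hσ A hA k U hk
    have hκ : 0 < min 1 (δ / (4 * (M : ℝ))) := by
      apply lt_min one_pos
      have : (1 : ℝ) ≤ M := by exact_mod_cast hM
      positivity
    obtain ⟨Bv, hBv⟩ := Pool.Agent.Q26.PD.autZ b hb A (fun j => hA j) k hk
    obtain ⟨X₀, h0⟩ := hB k Bv _ hBv M (R + 1) B U (min 1 (δ / (4 * M))) hM hκ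
    obtain ⟨X₁, h1⟩ := allGood_of K M R hK hM δ hδ (B + k.natAbs)
    refine ⟨X₀ + X₁ + 2, fun X hX c hc => ?_⟩
    refine h0 X (by omega) (aut b A X) rfl c hc (fun v => ¬ AllGood (K + 1) M R X δ (c + k * (v : ℤ)))
      (fun v hv hbad hgood => hbad (h1 X (by omega) _ ?_ hgood))
    have hvX : v < X := mem_range.1 (mem_filter.1 hv).1
    have h5 := Pool.Agent.Q26.PD.abs_le_of c k X v B 1 hc (by omega)
    rwa [mul_one] at h5

end Pool.Agent.Results.MP_4011c3_nt.ShortIntervalsSparseSets
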