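import Pool.Agent.Q25.UReg6
import Pool.Agent.TH464.PW.Quad

/-!
# The laws of the almost prime triples `q, q ^ 2 - 2, n - c - m q`, for every `n` and `m`

For a prime `p < n` with `q = ⌊(n - p) / m⌋` one has `p = n - c - m q` with `0 ≤ c < m`. For EVERY large `n`, every `m < n`
and every `c < m` such that `n - c` is prime to `m` and `n - c - m` is odd, call `q` good if none of `q`, `q ^ 2 - 2`,
`n - c - m q` has a prime factor `≤ n ^ (1/r)`. In ALL intervals of length at least `n ^ θ` the numbers of the good `q` in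
windows follow the Poisson law and the gaps between the good `q` are exponentially distributed, and almost all elements of
an ARBITRARY set of good `q` (for instance of the `q` for which all three numbers are prime) are regular points of this
set. All this is uniform in `m` and `c`.
-/

set_option autoImplicit false

namespace Pool.Agent.Results.MP_4011c3_nt.UniformLaws

open Finset Polynomial
open Pool.Agent.Q25.UReg (GoodP VP SmallDensity countP pois PoissonLawP GapLawP NoTr N RightOrder ConstantDensity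
  badScales Irregular Sys)
open Pool.Agent.Y879.GL (lf lf_eval lf_deg lf_coeff lf_irr lf_shift lf_neg lf_inj)

/-- the polynomials `X`, `X ^ 2 - 2`, `(n - c) - m X` -/
noncomputable def f (n m c : ℕ) : Fin 3 → ℤ[X] := ![X, X ^ 2 - 2, C ((n : ℤ) - c) - C (m : ℤ) * X]

/-- the parameters -/
structure Par (n m c : ℕ) : Prop where
  hm : m < n
  hc : c < m
  cop : (n - c).Coprime m
  odd : Odd (n - c + m)

lemma f0 (n m c : ℕ) : f n m c 0 = lf 1 0 := by
  change (X : ℤ[X]) = lf 1 0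
  unfold lf
  simp

lemma f1 (n m c : ℕ) : f n m c 1 = Pool.Agent.TH464.PW.quad 1 0 (-2) := by
  change (X ^ 2 - 2 : ℤ[X]) = _
  unfold Pool.Agent.TH464.PW.quad
  simp only [map_neg, map_one, map_zero]
  have : (C (2 : ℤ) : ℤ[X]) = 2 := rfl
  rw [this]
  ring

lemma f2 (n m c : ℕ) : f n m c 2 = lf (-m) ((n : ℤ) - c) := by
  change (C ((n : ℤ) - c) - C (m : ℤ) * X : ℤ[X]) = _
  unfold lf
  simp only [map_neg]
  ring

lemma ev (n m c : ℕ) (x : ℤ) : (f n m c 0).eval x = x ∧ (f n m c 1).eval x = x ^ 2 - 2 ∧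
    (f n m c 2).eval x = (n : ℤ) - c - m * x := by
  refine ⟨?_, ?_, ?_⟩
  · rw [f0, lf_eval]; ring
  · rw [f1, Pool.Agent.TH464.PW.quad_eval]; ring
  · rw [f2, lf_eval]; ring

lemma irr1 : Irreducible (Pool.Agent.TH464.PW.quad 1 0 (-2)) := by
  apply Pool.Agent.TH464.PW.quad_irr 1 0 (-2) one_ne_zero
  · rintro p hp ⟨h, -, -⟩
    exact hp.one_lt.ne' (Nat.dvd_one.1 (by exact_mod_cast h))
  · rintro ⟨y, hy⟩
    have h1 : y * y = 8 := by linarith
    have h2 : y.natAbs * y.natAbs = 8 := by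
      have : ((y.natAbs * y.natAbs : ℕ) : ℤ) = 8 := by
        push_cast
        rw [← abs_mul, h1]
        norm_num
      exact_mod_cast this
    have h3 : y.natAbs ≤ 2 := by
      by_contra h
      have : 3 ≤ y.natAbs := by omega
      nlinarith
    interval_cases y.natAbs <;> omega

lemma adm (n m c : ℕ) (h : Par n m c) (p : ℕ) (hp : p.Prime) :
    ∃ x : ℤ, ∀ i, ¬ (p : ℤ) ∣ (f n m c i).eval x := by
  have hnc : ((n - c : ℕ) : ℤ) = (n : ℤ) - c := by
    have := h.hm
    have := h.hc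
    omega
  have key : ∀ x : ℤ, ¬ (p : ℤ) ∣ x → ¬ (p : ℤ) ∣ x ^ 2 - 2 → ¬ (p : ℤ) ∣ (n : ℤ) - c - m * x →
      ∀ i, ¬ (p : ℤ) ∣ (f n m c i).eval x := by
    intro x h1 h2 h3 i
    obtain ⟨e1, e2, e3⟩ := ev n m c x
    fin_cases i
    · change ¬ (p : ℤ) ∣ (f n m c 0).eval x
      rw [e1]; exact h1
    · change ¬ (p : ℤ) ∣ (f n m c 1).eval x
      rw [e2]; exact h2
    · change ¬ (p : ℤ) ∣ (f n m c 2).eval x
      rw [e3]; exact h3
  have hcop : ¬ ((p : ℤ) ∣ (m : ℤ) ∧ (p : ℤ) ∣ (n : ℤ) - c) := by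
    rintro ⟨h1, h2⟩
    rw [← hnc] at h2
    exact Nat.Prime.not_coprime_iff_dvd.2 ⟨p, hp, by exact_mod_cast h2, by exact_mod_cast h1⟩ h.cop
  have hp' : Prime (p : ℤ) := Nat.prime_iff_prime_int.1 hp
  rcases Nat.lt_or_ge 4 p with h5 | h5
  · -- among `1, 2, 3, 4` at most two are bad for `x ^ 2 - 2` and at most one for the last form
    by_contra hcon
    push Not at hcon
    have hbad : ∀ x : ℤ, 1 ≤ x → x ≤ 4 → (p : ℤ) ∣ x ^ 2 - 2 ∨ (p : ℤ) ∣ (n : ℤ) - c - m * x := by
      intro x hx1 hx4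
      by_contra hc
      push Not at hc
      obtain ⟨i, hi⟩ := hcon x
      refine key x (fun hd => ?_) hc.1 hc.2 i hi
      have := Int.le_of_dvd (by omega) hd
      omega
    have hlin : ∀ x y : ℤ, 1 ≤ x → x < y → y ≤ 4 → (p : ℤ) ∣ (n : ℤ) - c - m * x → (p : ℤ) ∣ (n : ℤ) - c - m * y → False := by
      intro x y hx hxy hy h1 h2
      have h3 : (p : ℤ) ∣ m * (y - x) := by
        have e : (m : ℤ) * (y - x) = ((n : ℤ) - c - m * x) - ((n : ℤ) - c - m * y) := by ring
        rw [e]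
        exact dvd_sub h1 h2
      rcases hp'.dvd_or_dvd h3 with h4 | h4
      · apply hcop
        refine ⟨h4, ?_⟩
        have h6 : (p : ℤ) ∣ m * x := h4.mul_right _
        have h7 := dvd_add h1 h6
        rwa [sub_add_cancel] at h7
      · have := Int.le_of_dvd (by omega) h4
        omega
    have hq1 : ¬ (p : ℤ) ∣ (1 : ℤ) ^ 2 - 2 := by
      intro hd
      have h1 : (p : ℤ) ∣ 1 := by
        have := (dvd_neg).2 hd
        norm_num at this
        exact_mod_cast this
      exact hp.one_lt.ne' (Nat.dvd_one.1 (by exact_mod_cast h1))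
    have hq2 : ¬ (p : ℤ) ∣ (2 : ℤ) ^ 2 - 2 := by
      intro hd
      have := Int.le_of_dvd (by norm_num) hd
      omega
    have h1 := (hbad 1 (by norm_num) (by norm_num)).resolve_left hq1
    have h2 := (hbad 2 (by norm_num) (by norm_num)).resolve_left hq2
    exact hlin 1 2 (by norm_num) (by norm_num) (by norm_num) h1 h2
  · have hp23 : p = 2 ∨ p = 3 := by
      have := hp.two_le
      have h6 : p ≠ 4 := by
        rintro rfl
        exact absurd hp (by norm_num)
      omega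
    obtain ⟨w, hw⟩ := h.odd
    rcases hp23 with rfl | rfl
    · refine ⟨1, key 1 ?_ ?_ ?_⟩
      · omega
      · norm_num
      · omega
    · by_cases h3 : ((3 : ℕ) : ℤ) ∣ (n : ℤ) - c - m * 1
      · refine ⟨2, key 2 (by omega) (by norm_num) (fun h4 => hcop ?_)⟩
        omega
      · exact ⟨1, key 1 (by omega) (by norm_num) h3⟩

lemma deg0 (n m c : ℕ) (hm : 1 ≤ m) : (f n m c 0).natDegree = 1 ∧ (f n m c 1).natDegree = 2 ∧ (f n m c 2).natDegree = 1 := by
  refine ⟨?_, ?_, ?_⟩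
  · rw [f0]; exact lf_deg _ _ one_ne_zero
  · rw [f1]; exact Pool.Agent.TH464.PW.quad_deg _ _ _ one_ne_zero
  · rw [f2]; exact lf_deg _ _ (by omega)

lemma sys (n m c : ℕ) (h : Par n m c) (hn : 2 ≤ n) : Sys 2 ((n : ℝ) ^ (1 : ℝ)) (f n m c) where
  irr i := by
    have hnc : ((n - c : ℕ) : ℤ) = (n : ℤ) - c := by
      have := h.hm
      have := h.hc
      omega
    fin_cases i
    · change Irreducible (f n m c 0)
      rw [f0]
      exact lf_irr _ _ one_ne_zero isCoprime_one_left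
    · change Irreducible (f n m c 1)
      rw [f1]
      exact irr1
    · change Irreducible (f n m c 2)
      rw [f2]
      have := h.hc
      refine lf_irr _ _ (by omega) ?_
      rw [← hnc]
      exact (Nat.isCoprime_iff_coprime.2 h.cop.symm).neg_left
  deg i := by
    obtain ⟨h1, h2, h3⟩ := deg0 n m c (by have := h.hc; omega)
    fin_cases i
    · exact h1.ge
    · change 1 ≤ (f n m c 1).natDegree
      omega
    · exact h3.ge
  degD i := by
    obtain ⟨h1, h2, h3⟩ := deg0 n m c (by have := h.hc; omega)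
    fin_cases i
    · change (f n m c 0).natDegree ≤ 2
      omega
    · exact h2.le
    · change (f n m c 2).natDegree ≤ 2
      omega
  hgt i j := by
    rw [Real.rpow_one]
    have hn1 : (2 : ℝ) ≤ n := by exact_mod_cast hn
    have key : |(f n m c i).coeff j| ≤ (n : ℤ) := by
      have := h.hm
      have := h.hc
      rw [abs_le]
      fin_cases i
      · change -(n : ℤ) ≤ (f n m c 0).coeff j ∧ (f n m c 0).coeff j ≤ n
        rw [f0, lf_coeff]
        split_ifs <;> omega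
      · change -(n : ℤ) ≤ (f n m c 1).coeff j ∧ (f n m c 1).coeff j ≤ n
        have e : (f n m c 1).coeff j = (if j = 2 then 1 else 0) - (if j = 0 then 2 else 0) := by
          change (X ^ 2 - 2 : ℤ[X]).coeff j = _
          rw [coeff_sub, coeff_X_pow]
          congr 1
          have : (2 : ℤ[X]) = C 2 := rfl
          rw [this, coeff_C]
        rw [e]
        split_ifs <;> omega
      · change -(n : ℤ) ≤ (f n m c 2).coeff j ∧ (f n m c 2).coeff j ≤ n
        rw [f2, lf_coeff]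
        split_ifs <;> omega
    exact_mod_cast key
  adm := adm n m c h

lemma noTr (n m c : ℕ) (h : Par n m c) (hn : 2 ≤ n) : NoTr (f n m c) ((n : ℝ) ^ (1 / 2 : ℝ)) := by
  intro i j t ht htU
  have hn1 : (1 : ℝ) < n := by exact_mod_cast hn
  have htn : t < n := by
    have h1 : (n : ℝ) ^ (1 / 2 : ℝ) < (n : ℝ) ^ (1 : ℝ) := Real.rpow_lt_rpow_of_exponent_lt hn1 (by norm_num)
    rw [Real.rpow_one] at h1
    exact_mod_cast htU.trans_lt h1
  have hm1 : 1 ≤ m := by have := h.hc; omega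
  obtain ⟨d0, d1, d2⟩ := deg0 n m c hm1
  have hself : ∀ i, f n m c i ≠ (f n m c i).comp (X + C (t : ℤ)) ∧ f n m c i ≠ -(f n m c i).comp (X + C (t : ℤ)) := by
    intro i
    have hd : (f n m c i).natDegree ≠ 0 := by
      fin_cases i
      · exact ne_of_eq_of_ne d0 one_ne_zero
      · exact ne_of_eq_of_ne d1 two_ne_zero
      · exact ne_of_eq_of_ne d2 one_ne_zero
    have h1 := Pool.Agent.Y879.GL.no_self (f n m c i) hd t (by omega)
    constructor
    · intro h
      exact h1 (by nth_rewrite 1 [h]; exact Associated.refl _)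
    · intro h
      apply h1
      nth_rewrite 1 [h]
      exact (Associated.refl _).neg_left
  have hdeg : ∀ i j, (f n m c i).natDegree ≠ (f n m c j).natDegree →
      f n m c i ≠ (f n m c j).comp (X + C (t : ℤ)) ∧ f n m c i ≠ -(f n m c j).comp (X + C (t : ℤ)) := by
    intro i j hij
    have e : ((f n m c j).comp (X + C (t : ℤ))).natDegree = (f n m c j).natDegree := by
      rw [natDegree_comp, natDegree_X_add_C, mul_one]
    constructor
    · intro h
      apply hij
      rw [h, e]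
    · intro h
      apply hij
      rw [h, natDegree_neg, e]
  have hc := h.hc
  have hmn := h.hm
  have h02 : f n m c 0 ≠ (f n m c 2).comp (X + C (t : ℤ)) ∧ f n m c 0 ≠ -(f n m c 2).comp (X + C (t : ℤ)) := by
    rw [f0, f2, lf_shift, lf_neg]
    constructor
    · intro h1
      have h2 := (lf_inj _ _ _ _ h1).1
      omega
    · intro h1
      obtain ⟨h2, h3⟩ := lf_inj _ _ _ _ h1
      have h4 : m = 1 := by omega
      subst h4
      have h5 : c = 0 := by omega
      subst h5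
      push_cast at h3
      omega
  have h20 : f n m c 2 ≠ (f n m c 0).comp (X + C (t : ℤ)) ∧ f n m c 2 ≠ -(f n m c 0).comp (X + C (t : ℤ)) := by
    rw [f0, f2, lf_shift, lf_neg]
    constructor
    · intro h1
      have h2 := (lf_inj _ _ _ _ h1).1
      omega
    · intro h1
      obtain ⟨h2, h3⟩ := lf_inj _ _ _ _ h1
      omega
  fin_cases i <;> fin_cases j
  · exact hself 0
  · exact hdeg 0 1 (by omega)
  · exact h02
  · exact hdeg 1 0 (by omega)
  · exact hself 1
  · exact hdeg 1 2 (by omega)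
  · exact h20
  · exact hdeg 2 1 (by omega)
  · exact hself 2

lemma small (n m c r : ℕ) (h : Par n m c) : SmallDensity (f n m c) r n 1 := by
  have hm1 : 1 ≤ m := by have := h.hc; omega
  obtain ⟨d0, d1, d2⟩ := deg0 n m c hm1
  refine Or.inr ⟨0, 2, d0, d2, ?_, ?_⟩
  · rw [f0, f2]
    intro h1
    have h2 := (lf_inj _ _ _ _ h1).1
    omega
  · rw [f0, f2, lf_neg]
    intro h1
    have h2 := (lf_inj _ _ _ _ h1).2
    have := h.hm
    have := h.hc
    omega

/-- **The laws of the almost prime triples `q, q ^ 2 - 2, n - c - m q`, for every `n` and `m`.** -/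
theorem result (θ : ℝ) (hθ : 0 < θ) :
    (∀ (l₀ : ℕ) (x₀ ε : ℝ), 0 < ε → ∃ r₀ : ℕ, ∀ r : ℕ, r₀ ≤ r → ∃ n₀ : ℕ, ∀ n : ℕ, n₀ ≤ n →
      ∀ m c : ℕ, Par n m c → ∀ Z Y : ℕ, (n : ℝ) ^ θ ≤ Y →
        PoissonLawP (f n m c) r n Z Y x₀ ε ∧ GapLawP (f n m c) r n Z Y l₀ x₀ ε) ∧
    ∃ r₀ : ℕ, ∀ r : ℕ, r₀ ≤ r → ∀ ε : ℝ, 0 < ε → ∃ κ : ℝ, 0 < κ ∧ ∀ δ : ℝ, 0 < δ → ∃ B n₀ : ℕ,
      ∀ n : ℕ, n₀ ≤ n → ∀ m c : ℕ, Par n m c → ∀ u Y : ℕ, (n : ℝ) ^ θ ≤ Y → Y ≤ n → Y ≤ u →
        ∀ A : Set ℕ, (∀ q ∈ A, GoodP (f n m c) r n q) →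
          (N (Irregular A (VP (f n m c) r n) κ δ B Y) u (u + Y) : ℝ) ≤ ε * (Y * VP (f n m c) r n) := by
  constructor
  · intro l₀ x₀ ε hε
    obtain ⟨r₀, _, h⟩ := Pool.Agent.Q25.UReg.poly_laws 3 2 1 (1 / 2) θ one_pos (by norm_num) hθ l₀ x₀ ε hε
    refine ⟨r₀, fun r hr => ?_⟩
    obtain ⟨n₀, hn₀⟩ := Filter.eventually_atTop.1 ((h r hr 1).and (Filter.eventually_ge_atTop 2))
    refine ⟨n₀, fun n hn m c hp Z Y hY => ?_⟩
    obtain ⟨h1, h2⟩ := hn₀ n hn
    exact h1 (f n m c) (sys n m c hp h2) (small n m c r hp) (noTr n m c hp h2) Z Y hY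
  · obtain ⟨r₀, _, h⟩ := Pool.Agent.Q25.UReg.poly_reg 3 2 1 θ one_pos hθ
    refine ⟨r₀, fun r hr ε hε => ?_⟩
    obtain ⟨κ, hκ, h1⟩ := h r hr 1 ε hε
    refine ⟨κ, hκ, fun δ hδ => ?_⟩
    obtain ⟨B, hB⟩ := h1 δ hδ
    obtain ⟨n₀, hn₀⟩ := Filter.eventually_atTop.1 (hB.and (Filter.eventually_ge_atTop 2))
    refine ⟨B, n₀, fun n hn m c hp u Y hXY hYX hYu A hA => ?_⟩
    obtain ⟨h1, h2⟩ := hn₀ n hn
    exact h1 (f n m c) (sys n m c hp h2) (small n m c r hp) u Y hXY hYX hYu A hA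

end Pool.Agent.Results.MP_4011c3_nt.UniformLaws
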